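import Pool.Agent.Y771.NM.Stage

/-!
Simultaneous construction for countably many affine maps with irrational slopes.
-/

set_option autoImplicit false

namespace Pool.Agent.Y771.NM

open Finset Filter Topology
open Pool.Agent.W28.NR (ex norm_ex NormalBase normal_of_weyl exists_seq find_index norm_ex_sub_le)

/-- the `x` with `P ≤ α x + γ ≤ Q` -/
def Jx (α γ P Q : ℝ) : Set ℝ := {x | P ≤ α * x + γ ∧ α * x + γ ≤ Q}

lemma Jx_compact (α γ P Q : ℝ) (hα : α ≠ 0) : IsCompact (Jx α γ P Q) := by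
  have h : Jx α γ P Q = ((Homeomorph.mulLeft₀ α hα).trans (Homeomorph.addRight γ)) ⁻¹' Set.Icc P Q := by
    ext x
    simp [Jx]
  rw [h, Homeomorph.isCompact_preimage]
  exact isCompact_Icc

lemma Jx_nonempty (α γ P Q : ℝ) (hα : α ≠ 0) (hPQ : P ≤ Q) : (Jx α γ P Q).Nonempty := by
  refine ⟨(P - γ) / α, ?_⟩
  have : α * ((P - γ) / α) + γ = P := by
    rw [mul_div_cancel₀ _ hα]; ring
  exact ⟨this.ge, this.le.trans hPQ⟩

/-- a cylinder of the next map inside the current interval -/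
lemma refine_iv (r : ℕ) (hr : 2 ≤ r) (α γ α' γ' P : ℝ) (hα : α ≠ 0) (hα' : α' ≠ 0) (s C : ℕ)
    (hC : 2 * |α| ≤ |α'| * (r : ℝ) ^ C) : ∃ A : ℤ,
    Jx α' γ' ((A : ℝ) / (r : ℝ) ^ (s + C)) (((A : ℝ) + 1) / (r : ℝ) ^ (s + C)) ⊆
      Jx α γ P (P + 1 / (r : ℝ) ^ s) := by
  have hr0 : (0 : ℝ) < r := by
    have : 0 < r := by omega
    exact_mod_cast this
  set δ : ℝ := 1 / (r : ℝ) ^ s with hδ
  have hδ0 : 0 < δ := by positivity
  set R : ℝ := (r : ℝ) ^ (s + C) with hR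
  have hR0 : 0 < R := by positivity
  set ρ : ℝ := α' / α with hρ
  have hρ0 : ρ ≠ 0 := div_ne_zero hα' hα
  have hlen : 2 / R ≤ |ρ| * δ := by
    rw [hρ, abs_div, hδ, hR, pow_add, div_mul_div_comm, mul_one, div_le_div_iff₀ (by positivity)
      (by have := abs_pos.2 hα; positivity)]
    have h1 : (0 : ℝ) < (r : ℝ) ^ s := by positivity
    calc 2 * (|α| * (r : ℝ) ^ s) = (2 * |α|) * (r : ℝ) ^ s := by ring
      _ ≤ (|α'| * (r : ℝ) ^ C) * (r : ℝ) ^ s := mul_le_mul_of_nonneg_right hC h1.le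
      _ = _ := by ring
  set y1 : ℝ := α' * ((P - γ) / α) + γ' with hy1
  set m : ℝ := min y1 (y1 + ρ * δ) with hm
  set M : ℝ := max y1 (y1 + ρ * δ) with hM
  have hmM : M = m + |ρ| * δ := by
    rcases lt_or_gt_of_ne hρ0 with h | h
    · have h2 : ρ * δ < 0 := mul_neg_of_neg_of_pos h hδ0
      rw [hM, hm, max_eq_left (by linarith), min_eq_right (by linarith), abs_of_neg h]
      ring
    · have h2 : 0 < ρ * δ := mul_pos h hδ0
      rw [hM, hm, max_eq_right (by linarith), min_eq_left (by linarith), abs_of_pos h]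
  refine ⟨⌈m * R⌉, fun x hx => ?_⟩
  obtain ⟨hx1, hx2⟩ := hx
  have h1 : m ≤ (⌈m * R⌉ : ℝ) / R := by
    rw [le_div_iff₀ hR0]; exact Int.le_ceil _
  have h2 : ((⌈m * R⌉ : ℝ) + 1) / R ≤ M := by
    have h3 := Int.ceil_lt_add_one (m * R)
    rw [hmM]
    refine le_trans ?_ (add_le_add_right hlen m)
    rw [div_le_iff₀ hR0]
    have : (m + 2 / R) * R = m * R + 2 := by field_simp
    rw [this]
    linarith
  have h3 : m ≤ α' * x + γ' := h1.trans hx1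
  have h4 : α' * x + γ' ≤ M := hx2.trans h2
  set t : ℝ := α * x + γ - P with ht
  have hxt : α' * x + γ' = y1 + ρ * t := by
    rw [hy1, ht, hρ]
    field_simp
    ring
  rw [hxt] at h3 h4
  have h5 : 0 ≤ t ∧ t ≤ δ := by
    rcases lt_or_gt_of_ne hρ0 with h | h
    · have h2 : ρ * δ < 0 := mul_neg_of_neg_of_pos h hδ0
      rw [hM, max_eq_left (by linarith)] at h4
      rw [hm, min_eq_right (by linarith)] at h3
      constructor
      · by_contra hcon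
        push Not at hcon
        have := mul_pos_of_neg_of_neg h hcon
        linarith
      · by_contra hcon
        push Not at hcon
        have := mul_lt_mul_of_neg_left hcon h
        linarith
    · have h2 : 0 < ρ * δ := mul_pos h hδ0
      rw [hM, max_eq_right (by linarith)] at h4
      rw [hm, min_eq_left (by linarith)] at h3
      constructor
      · by_contra hcon
        push Not at hcon
        have := mul_neg_of_pos_of_neg h hcon
        linarith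
      · by_contra hcon
        push Not at hcon
        have := mul_lt_mul_of_pos_left hcon h
        linarith
  constructor
  · linarith [h5.1]
  · linarith [h5.2]

lemma exists_C (r : ℕ) (hr : 2 ≤ r) (α α' : ℝ) (hα' : α' ≠ 0) :
    ∃ C : ℕ, 2 * |α| ≤ |α'| * (r : ℝ) ^ C := by
  have h0 : 0 < |α'| := abs_pos.2 hα'
  obtain ⟨C, hC⟩ := pow_unbounded_of_one_lt (2 * |α| / |α'|)
    (by exact_mod_cast (by omega : 1 < r) : (1 : ℝ) < r)
  refine ⟨C, ?_⟩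
  rw [div_lt_iff₀ h0] at hC
  linarith

/-- the interval of the state `s` at the map `α x + γ` -/
def JS (r : ℕ) (α γ : ℝ) (s : ℕ × ℤ) : Set ℝ :=
  Jx α γ ((s.2 : ℝ) / (r : ℝ) ^ s.1) (((s.2 : ℝ) + 1) / (r : ℝ) ^ s.1)

/-- relation between consecutive states; the maps are `α j * x + γ j` -/
def Rl (r : ℕ) (α γ : ℕ → ℝ) (j : ℕ) (s s' : ℕ × ℤ) : Prop :=
  ∃ (N C : ℕ) (B : ℤ), s.1 ≤ N ∧ (j + 1) * (s.1 + 1) ≤ N ∧ (j + 1) * C ≤ N ∧
    s'.1 = N + N / 16 + C ∧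
    JS r (α (j + 1)) (γ (j + 1)) s' ⊆
      Jx (α j) (γ j) ((B : ℝ) / (r : ℝ) ^ N) ((B : ℝ) / (r : ℝ) ^ N + 1 / (r : ℝ) ^ (N + N / 16)) ∧
    s.2 * (r : ℤ) ^ (N - s.1) ≤ B ∧ B + 1 ≤ (s.2 + 1) * (r : ℤ) ^ (N - s.1) ∧
    ∀ h : ℕ, 1 ≤ h → h ≤ j + 1 → ∀ M, s.1 ≤ M → M ≤ N + N / 16 →
      ‖∑ m ∈ Ico s.1 M, ex (h * ((r : ℝ) ^ m * ((α j)⁻¹ * ((B : ℝ) / (r : ℝ) ^ N) +
        (-(γ j * (α j)⁻¹)))))‖ ≤ 1 / ((j : ℝ) + 1) * M

lemma exists_states (r : ℕ) (hr : 2 ≤ r) (α γ : ℕ → ℝ) (hα : ∀ j, Irrational (α j)) (u v : ℝ)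
    (huv : u < v) : ∃ f : ℕ → ℕ × ℤ, JS r (α 0) (γ 0) (f 0) ⊆ Set.Ioo u v ∧
      (∀ j : ℕ, 2 * Real.pi * ((j : ℝ) + 1) * |(α j)⁻¹| ≤ 1 / ((j : ℝ) + 1) * (f j).1) ∧
      ∀ j, Rl r α γ j (f j) (f (j + 1)) := by
  have hr1 : (1 : ℝ) < r := by exact_mod_cast (by omega : 1 < r)
  have hr0 : (0 : ℝ) < r := by linarith
  have hS : ∀ j : ℕ, ∃ L0 : ℕ, 2 * Real.pi * ((j : ℝ) + 1) * |(α j)⁻¹| ≤ 1 / ((j : ℝ) + 1) * L0 ∧
      ∀ L, L0 ≤ L → ∀ (A : ℤ) (κ : ℝ) (N0 : ℕ), ∃ N, N0 ≤ N ∧ L ≤ N ∧ ∃ p, p < r ^ (N - L) ∧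
      ∀ h : ℕ, 1 ≤ h → h ≤ j + 1 → ∀ M, L ≤ M → M ≤ N + N / 16 →
      ‖∑ m ∈ Ico L M, ex (h * ((r : ℝ) ^ m * ((α j)⁻¹ *
        (((A * (r : ℤ) ^ (N - L) + (p : ℤ) : ℤ) : ℝ) / (r : ℝ) ^ N) + κ)))‖ ≤
        1 / ((j : ℝ) + 1) * M := by
    intro j
    obtain ⟨L0, hL0⟩ := stage_aff r hr (α j)⁻¹ (hα j).inv (1 / ((j : ℝ) + 1)) (by positivity) (j + 1)
    obtain ⟨L1, hL1⟩ := exists_nat_ge (2 * Real.pi * ((j : ℝ) + 1) * |(α j)⁻¹| * ((j : ℝ) + 1))
    refine ⟨max L0 L1, ?_, fun L hL => hL0 L ((le_max_left _ _).trans hL)⟩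
    rw [div_mul_eq_mul_div, one_mul, le_div_iff₀ (by positivity)]
    refine hL1.trans ?_
    exact_mod_cast le_max_right L0 L1
  choose g hg0 hg using hS
  have hCC : ∀ j : ℕ, ∃ C : ℕ, 2 * |α j| ≤ |α (j + 1)| * (r : ℝ) ^ C :=
    fun j => exists_C r hr _ _ (hα (j + 1)).ne_zero
  choose C hC using hCC
  obtain ⟨f, hf1, hf2⟩ := exists_seq
    (fun j (s : ℕ × ℤ) => g j ≤ s.1 ∧ (j = 0 → JS r (α 0) (γ 0) s ⊆ Set.Ioo u v)) (Rl r α γ)
    (by
      obtain ⟨C0, hC0⟩ := exists_C r hr 1 (α 0) (hα 0).ne_zero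
      obtain ⟨s1, hs1⟩ := pow_unbounded_of_one_lt (2 / (v - u)) hr1
      have hvu : 0 < v - u := by linarith
      obtain ⟨A, hA⟩ := refine_iv r hr 1 0 (α 0) (γ 0) ((u + v) / 2) one_ne_zero (hα 0).ne_zero
        (s1 + g 0) C0 hC0
      refine ⟨(s1 + g 0 + C0, A), by simp only; omega, fun _ => ?_⟩
      intro x hx
      obtain ⟨h1, h2⟩ := hA hx
      rw [one_mul, add_zero] at h1 h2
      have h3 : 1 / (r : ℝ) ^ (s1 + g 0) < (v - u) / 2 := by
        rw [div_lt_iff₀ hvu] at hs1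
        rw [div_lt_div_iff₀ (by positivity) (by norm_num), pow_add]
        have h4 : (1 : ℝ) ≤ (r : ℝ) ^ (g 0) := one_le_pow₀ hr1.le
        have h5 : (0 : ℝ) < (r : ℝ) ^ s1 := by positivity
        have h6 : (r : ℝ) ^ s1 ≤ (r : ℝ) ^ s1 * (r : ℝ) ^ (g 0) := le_mul_of_one_le_right h5.le h4
        nlinarith
      constructor
      · linarith
      · linarith)
    (by
      rintro j ⟨L, A⟩ ⟨h1, -⟩
      simp only at h1
      obtain ⟨N, hN0, hLN, p, hp, hb⟩ := hg j L h1 A (-(γ j * (α j)⁻¹))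
        (max (g (j + 1)) (max ((j + 1) * (L + 1)) ((j + 1) * C j)))
      have hN1 : g (j + 1) ≤ N := (le_max_left _ _).trans hN0
      have hN2 : (j + 1) * (L + 1) ≤ N := ((le_max_left _ _).trans (le_max_right _ _)).trans hN0
      have hN3 : (j + 1) * C j ≤ N := ((le_max_right _ _).trans (le_max_right _ _)).trans hN0
      set B : ℤ := A * (r : ℤ) ^ (N - L) + (p : ℤ) with hB
      obtain ⟨A', hA'⟩ := refine_iv r hr (α j) (γ j) (α (j + 1)) (γ (j + 1)) ((B : ℝ) / (r : ℝ) ^ N)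
        (hα j).ne_zero (hα (j + 1)).ne_zero (N + N / 16) (C j) (hC j)
      refine ⟨(N + N / 16 + C j, A'), ⟨?_, fun h => absurd h (Nat.succ_ne_zero j)⟩, N, C j, B, hLN,
        hN2, hN3, rfl, hA', ?_, ?_, hb⟩
      · simp only; omega
      · rw [hB]
        have : (0 : ℤ) ≤ (p : ℤ) := by positivity
        linarith
      · rw [hB]
        have h2 : (p : ℤ) + 1 ≤ (r : ℤ) ^ (N - L) := by exact_mod_cast hp
        linarith)
  refine ⟨f, (hf1 0).2 rfl, fun j => ?_, hf2⟩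
  refine (hg0 j).trans ?_
  have : (g j : ℝ) ≤ (f j).1 := by exact_mod_cast (hf1 j).1
  exact mul_le_mul_of_nonneg_left this (by positivity)

lemma nested {r : ℕ} (hr : 2 ≤ r) {α γ : ℕ → ℝ} {j : ℕ} {s s' : ℕ × ℤ} (h : Rl r α γ j s s') :
    JS r (α (j + 1)) (γ (j + 1)) s' ⊆ JS r (α j) (γ j) s := by
  obtain ⟨N, C, B, h1, -, -, -, h5, h6, h7, -⟩ := h
  have hr0 : (0 : ℝ) < r := by
    have : 0 < r := by omega
    exact_mod_cast this
  have hr1 : (1 : ℝ) ≤ r := by exact_mod_cast (by omega : 1 ≤ r)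
  have p1 : (0 : ℝ) < (r : ℝ) ^ s.1 := by positivity
  have p2 : (0 : ℝ) < (r : ℝ) ^ (N - s.1) := by positivity
  have hN : (r : ℝ) ^ N = (r : ℝ) ^ s.1 * (r : ℝ) ^ (N - s.1) := by rw [← pow_add]; congr 1; omega
  have h6' : (s.2 : ℝ) * (r : ℝ) ^ (N - s.1) ≤ B := by exact_mod_cast h6
  have h7' : (B : ℝ) + 1 ≤ ((s.2 : ℝ) + 1) * (r : ℝ) ^ (N - s.1) := by exact_mod_cast h7
  intro x hx
  obtain ⟨a1, a2⟩ := h5 hx
  constructor
  · refine le_trans ?_ a1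
    rw [hN, div_le_div_iff₀ p1 (by positivity)]
    calc (s.2 : ℝ) * ((r : ℝ) ^ s.1 * (r : ℝ) ^ (N - s.1)) =
        ((s.2 : ℝ) * (r : ℝ) ^ (N - s.1)) * (r : ℝ) ^ s.1 := by ring
      _ ≤ B * (r : ℝ) ^ s.1 := mul_le_mul_of_nonneg_right h6' p1.le
  · refine a2.trans ?_
    have h8 : 1 / (r : ℝ) ^ (N + N / 16) ≤ 1 / (r : ℝ) ^ N :=
      one_div_le_one_div_of_le (by positivity) (pow_le_pow_right₀ hr1 (by omega))
    have h9 : ((B : ℝ) + 1) / (r : ℝ) ^ N ≤ ((s.2 : ℝ) + 1) / (r : ℝ) ^ s.1 := by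
      rw [hN, div_le_div_iff₀ (by positivity) p1]
      calc ((B : ℝ) + 1) * (r : ℝ) ^ s.1 ≤
          (((s.2 : ℝ) + 1) * (r : ℝ) ^ (N - s.1)) * (r : ℝ) ^ s.1 :=
            mul_le_mul_of_nonneg_right h7' p1.le
        _ = _ := by ring
    rw [add_div] at h9
    linarith

/-- the exponential sums over one block -/
lemma block {r : ℕ} (hr : 2 ≤ r) {α γ : ℕ → ℝ} (hα : ∀ j, Irrational (α j)) {j : ℕ} {s s' : ℕ × ℤ}
    (h : Rl r α γ j s s')
    (hs : 2 * Real.pi * ((j : ℝ) + 1) * |(α j)⁻¹| ≤ 1 / ((j : ℝ) + 1) * s.1)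
    {x : ℝ} (hx : x ∈ JS r (α (j + 1)) (γ (j + 1)) s') (k : ℕ) (hk1 : 1 ≤ k) (hk2 : k ≤ j + 1)
    (M : ℕ) (hM1 : s.1 ≤ M) (hM2 : M ≤ s'.1) :
    ‖∑ m ∈ Ico s.1 M, ex (k * ((r : ℝ) ^ m * x))‖ ≤ 3 / ((j : ℝ) + 1) * M := by
  obtain ⟨N, C, B, h1, h2, h3, h4, h5, -, -, h8⟩ := h
  have hpi := Real.pi_pos
  have hr2 : (2 : ℝ) ≤ r := by exact_mod_cast hr
  have hr0 : (0 : ℝ) < r := by linarith
  have hj : (0 : ℝ) < (j : ℝ) + 1 := by positivity
  obtain ⟨a1, a2⟩ := h5 hx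
  have hα0 : α j ≠ 0 := (hα j).ne_zero
  set S : ℕ := N + N / 16 with hS
  set x0 : ℝ := (α j)⁻¹ * ((B : ℝ) / (r : ℝ) ^ N) + (-(γ j * (α j)⁻¹)) with hx0
  have hdist : |x - x0| ≤ |(α j)⁻¹| * (1 / (r : ℝ) ^ S) := by
    have e : x - x0 = (α j)⁻¹ * (α j * x + γ j - (B : ℝ) / (r : ℝ) ^ N) := by
      rw [hx0]; field_simp; ring
    rw [e, abs_mul]
    refine mul_le_mul_of_nonneg_left ?_ (abs_nonneg _)
    rw [abs_of_nonneg (by linarith)]
    linarith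
  have hmain : ∀ M : ℕ, s.1 ≤ M → M ≤ S →
      ‖∑ m ∈ Ico s.1 M, ex (k * ((r : ℝ) ^ m * x))‖ ≤ 2 / ((j : ℝ) + 1) * M := by
    intro M b1 b2
    have hb := h8 k hk1 hk2 M b1 b2
    have hdiff : ‖∑ m ∈ Ico s.1 M, ex (k * ((r : ℝ) ^ m * x)) -
        ∑ m ∈ Ico s.1 M, ex (k * ((r : ℝ) ^ m * x0))‖ ≤ 2 * Real.pi * k * |(α j)⁻¹| := by
      rw [← sum_sub_distrib]
      refine (norm_sum_le _ _).trans ?_
      have hterm : ∀ m ∈ Ico s.1 M, ‖ex (k * ((r : ℝ) ^ m * x)) - ex (k * ((r : ℝ) ^ m * x0))‖ ≤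
          2 * Real.pi * k * |(α j)⁻¹| / (r : ℝ) ^ S * (r : ℝ) ^ m := by
        intro m _
        refine (norm_ex_sub_le _ _).trans ?_
        have e : (k : ℝ) * ((r : ℝ) ^ m * x) - k * ((r : ℝ) ^ m * x0) =
            (k * (r : ℝ) ^ m) * (x - x0) := by ring
        rw [e, abs_mul, abs_of_nonneg (by positivity : (0 : ℝ) ≤ k * (r : ℝ) ^ m)]
        calc 2 * Real.pi * ((k * (r : ℝ) ^ m) * |x - x0|) ≤
            2 * Real.pi * ((k * (r : ℝ) ^ m) * (|(α j)⁻¹| * (1 / (r : ℝ) ^ S))) := by gcongr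
          _ = _ := by ring
      refine (sum_le_sum hterm).trans ?_
      rw [← mul_sum]
      have hgeo : ∑ m ∈ Ico s.1 M, (r : ℝ) ^ m ≤ (r : ℝ) ^ S := by
        calc ∑ m ∈ Ico s.1 M, (r : ℝ) ^ m ≤ ∑ m ∈ range S, (r : ℝ) ^ m := by
              apply sum_le_sum_of_subset_of_nonneg
              · intro m hm; rw [mem_Ico] at hm; rw [mem_range]; omega
              · intro m _ _; positivity
          _ ≤ (r : ℝ) ^ S := by
              rw [geom_sum_eq (by linarith), div_le_iff₀ (by linarith)]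
              have : (0 : ℝ) < (r : ℝ) ^ S := by positivity
              nlinarith
      have hpos : (0 : ℝ) < (r : ℝ) ^ S := by positivity
      calc 2 * Real.pi * k * |(α j)⁻¹| / (r : ℝ) ^ S * ∑ m ∈ Ico s.1 M, (r : ℝ) ^ m ≤
          2 * Real.pi * k * |(α j)⁻¹| / (r : ℝ) ^ S * (r : ℝ) ^ S := by
            apply mul_le_mul_of_nonneg_left hgeo
            positivity
        _ = _ := by field_simp
    have hk : (k : ℝ) ≤ (j : ℝ) + 1 := by exact_mod_cast hk2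
    have h9 : 2 * Real.pi * k * |(α j)⁻¹| ≤ 1 / ((j : ℝ) + 1) * M := by
      calc 2 * Real.pi * k * |(α j)⁻¹| ≤ 2 * Real.pi * ((j : ℝ) + 1) * |(α j)⁻¹| := by gcongr
        _ ≤ 1 / ((j : ℝ) + 1) * s.1 := hs
        _ ≤ _ := by
            have : (s.1 : ℝ) ≤ M := by exact_mod_cast b1
            gcongr
    have e2 : ∑ m ∈ Ico s.1 M, ex (k * ((r : ℝ) ^ m * x)) =
        ∑ m ∈ Ico s.1 M, ex (k * ((r : ℝ) ^ m * x0)) +
        (∑ m ∈ Ico s.1 M, ex (k * ((r : ℝ) ^ m * x)) -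
          ∑ m ∈ Ico s.1 M, ex (k * ((r : ℝ) ^ m * x0))) := by ring
    rw [e2]
    refine (norm_add_le _ _).trans ((add_le_add hb (hdiff.trans h9)).trans (le_of_eq ?_))
    ring
  have hM0 : (0 : ℝ) ≤ M := Nat.cast_nonneg _
  rcases le_or_gt M S with hc | hc
  · refine (hmain M hM1 hc).trans ?_
    gcongr
    norm_num
  · have hNS : s.1 ≤ S := by omega
    rw [← sum_Ico_consecutive _ hNS hc.le]
    refine (norm_add_le _ _).trans ?_
    have h9 := hmain S hNS le_rfl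
    have h10 : ‖∑ m ∈ Ico S M, ex (k * ((r : ℝ) ^ m * x))‖ ≤ (C : ℝ) := by
      refine (norm_sum_le _ _).trans ?_
      simp only [norm_ex, sum_const, Nat.card_Ico, nsmul_eq_mul, mul_one]
      have : M - S ≤ C := by omega
      exact_mod_cast this
    have h11 : (C : ℝ) ≤ 1 / ((j : ℝ) + 1) * M := by
      rw [div_mul_eq_mul_div, one_mul, le_div_iff₀ hj]
      have : C * (j + 1) ≤ M := by
        have : (j + 1) * C ≤ N := h3
        have h12 : N ≤ M := by omega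
        nlinarith
      exact_mod_cast this
    have h13 : (S : ℝ) ≤ M := by exact_mod_cast hc.le
    have h14 : 2 / ((j : ℝ) + 1) * (S : ℝ) ≤ 2 / ((j : ℝ) + 1) * M := by gcongr
    calc _ ≤ 2 / ((j : ℝ) + 1) * M + 1 / ((j : ℝ) + 1) * M := by linarith
      _ = _ := by ring

/-- normality from block estimates -/
lemma normal_of_blocks {r : ℕ} (hr : 2 ≤ r) {x : ℝ} (L : ℕ → ℕ) (hL : ∀ j, (j + 1) * L j ≤ L (j + 1))
    (hL' : ∀ j, L j < L (j + 1))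
    (hb : ∀ j k : ℕ, 1 ≤ k → k ≤ j + 1 → ∀ M, L j ≤ M → M ≤ L (j + 1) →
      ‖∑ m ∈ Ico (L j) M, ex (k * ((r : ℝ) ^ m * x))‖ ≤ 3 / ((j : ℝ) + 1) * M) :
    NormalBase r x := by
  apply normal_of_weyl r hr
  intro h hh1
  rw [Metric.tendsto_atTop]
  intro η hη
  obtain ⟨J, hJ⟩ := exists_nat_gt (max (8 / η) (h + 1))
  have hJ1 : 8 / η < J := lt_of_le_of_lt (le_max_left _ _) hJ
  have hJ2 : (h : ℝ) + 1 < J := lt_of_le_of_lt (le_max_right _ _) hJ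
  have hJ3 : h + 1 < J := by exact_mod_cast hJ2
  refine ⟨max (L J) 1, fun M hM => ?_⟩
  have hM1 : L J ≤ M := (le_max_left _ _).trans hM
  have hM2 : 1 ≤ M := (le_max_right _ _).trans hM
  have hMpos : (0 : ℝ) < M := by exact_mod_cast hM2
  obtain ⟨j, hjJ, hj1, hj2⟩ := find_index L hL' J M hM1
  obtain ⟨i, rfl⟩ : ∃ i, j = i + 1 := ⟨j - 1, by omega⟩
  have hs1 : ∑ m ∈ range M, ex (h * ((r : ℝ) ^ m * x)) =
      ∑ m ∈ range (L i), ex (h * ((r : ℝ) ^ m * x)) +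
      (∑ m ∈ Ico (L i) (L (i + 1)), ex (h * ((r : ℝ) ^ m * x)) +
       ∑ m ∈ Ico (L (i + 1)) M, ex (h * ((r : ℝ) ^ m * x))) := by
    rw [sum_Ico_consecutive _ (hL' i).le hj1, sum_range_add_sum_Ico _ ((hL' i).le.trans hj1)]
  have hb1 : ‖∑ m ∈ range (L i), ex (h * ((r : ℝ) ^ m * x))‖ ≤ L i := by
    refine (norm_sum_le _ _).trans ?_
    simp [norm_ex]
  have hb2 := hb i h hh1 (by omega) (L (i + 1)) (hL' i).le le_rfl
  have hb3 := hb (i + 1) h hh1 (by omega) M hj1 hj2.le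
  have hi0 : (0 : ℝ) < (i : ℝ) + 1 := by positivity
  have hLi : (L i : ℝ) ≤ 1 / ((i : ℝ) + 1) * M := by
    have h1 : (i + 1) * L i ≤ M := (hL i).trans hj1
    have h2 : ((i : ℝ) + 1) * (L i : ℝ) ≤ M := by exact_mod_cast h1
    rw [div_mul_eq_mul_div, one_mul, le_div_iff₀ hi0]
    linarith
  have hi : (8 : ℝ) / η < i + 1 := by
    have : (J : ℝ) ≤ ((i + 1 : ℕ) : ℝ) := by exact_mod_cast hjJ
    push_cast at this
    linarith
  have hLM : ((L (i + 1) : ℕ) : ℝ) ≤ M := by exact_mod_cast hj1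
  have hb2' : 3 / ((i : ℝ) + 1) * ((L (i + 1) : ℕ) : ℝ) ≤ 3 / ((i : ℝ) + 1) * M := by gcongr
  have hb3' : 3 / (((i + 1 : ℕ) : ℝ) + 1) * (M : ℝ) ≤ 3 / ((i : ℝ) + 1) * M := by
    gcongr
    push_cast
    linarith
  have htot : ‖∑ m ∈ range M, ex (h * ((r : ℝ) ^ m * x))‖ ≤ 7 / ((i : ℝ) + 1) * M := by
    rw [hs1]
    refine (norm_add_le _ _).trans ?_
    have := norm_add_le (∑ m ∈ Ico (L i) (L (i + 1)), ex (h * ((r : ℝ) ^ m * x)))
      (∑ m ∈ Ico (L (i + 1)) M, ex (h * ((r : ℝ) ^ m * x)))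
    have e : 7 / ((i : ℝ) + 1) * (M : ℝ) = 1 / ((i : ℝ) + 1) * M + (3 / ((i : ℝ) + 1) * M +
        3 / ((i : ℝ) + 1) * M) := by ring
    rw [e]
    linarith
  have h7 : 7 / ((i : ℝ) + 1) < η := by
    rw [div_lt_iff₀ hi0]
    rw [div_lt_iff₀ hη] at hi
    nlinarith
  rw [dist_zero_right, norm_div]
  have hMn : ‖(M : ℂ)‖ = M := by simp
  rw [hMn, div_lt_iff₀ hMpos]
  exact lt_of_le_of_lt htot (mul_lt_mul_of_pos_right h7 hMpos)

/-- long blocks of zeros -/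
lemma not_normal_of_blocks {r : ℕ} (hr : 2 ≤ r) {y : ℝ}
    (hy : ∀ n0 : ℕ, ∃ N, n0 ≤ N ∧ ∃ B : ℤ, (B : ℝ) / (r : ℝ) ^ N ≤ y ∧
      y ≤ (B : ℝ) / (r : ℝ) ^ N + 1 / (r : ℝ) ^ (N + N / 16)) : ¬ NormalBase r y := by
  intro hn
  have hr2 : (2 : ℝ) ≤ r := by exact_mod_cast hr
  have hr0 : (0 : ℝ) < r := by linarith
  have hlim := hn 18 (by omega) 0 le_rfl (by positivity)
  have hrk : 34 ≤ (r : ℝ) ^ 18 := by
    have h1 : (2 : ℝ) ^ 18 ≤ (r : ℝ) ^ 18 := pow_le_pow_left₀ (by norm_num) hr2 _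
    norm_num at h1
    linarith
  rw [Metric.tendsto_atTop] at hlim
  obtain ⟨M1, hM1⟩ := hlim (1 / 68) (by norm_num)
  obtain ⟨N, hN, B, hB1, hB2⟩ := hy (max M1 (16 * 80))
  have hNM : M1 ≤ N := (le_max_left _ _).trans hN
  have hN80 : 16 * 80 ≤ N := (le_max_right _ _).trans hN
  set t := N / 16 with ht
  have ht1 : 80 ≤ t := by omega
  have hfreq := hM1 (N + t) (by omega)
  rw [Real.dist_eq] at hfreq
  have hfreq2 := (abs_lt.1 hfreq).2
  have hcount : t - 18 ≤ ((Finset.range (N + t)).filter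
      (fun n : ℕ => ⌊(r : ℝ) ^ (n + 18) * y⌋ % (r : ℤ) ^ 18 = 0)).card := by
    have hsub : Ico N (N + t - 18) ⊆ (Finset.range (N + t)).filter
        (fun n : ℕ => ⌊(r : ℝ) ^ (n + 18) * y⌋ % (r : ℤ) ^ 18 = 0) := by
      intro n hn
      rw [mem_Ico] at hn
      rw [mem_filter, mem_range]
      refine ⟨by omega, ?_⟩
      have e1 : (r : ℝ) ^ (n + 18) * ((B : ℝ) / (r : ℝ) ^ N)
          = ((B * (r : ℤ) ^ (n - N) * (r : ℤ) ^ 18 : ℤ) : ℝ) := by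
        have : (r : ℝ) ^ (n + 18) = (r : ℝ) ^ N * ((r : ℝ) ^ (n - N) * (r : ℝ) ^ 18) := by
          rw [← pow_add, ← pow_add]; congr 1; omega
        rw [this]; push_cast; field_simp
      have hp : (0 : ℝ) < (r : ℝ) ^ (n + 18) := by positivity
      have hfl : ⌊(r : ℝ) ^ (n + 18) * y⌋ = B * (r : ℤ) ^ (n - N) * (r : ℤ) ^ 18 := by
        rw [Int.floor_eq_iff]
        constructor
        · rw [← e1]
          exact mul_le_mul_of_nonneg_left hB1 hp.le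
        · rw [← e1]
          have h7 := mul_le_mul_of_nonneg_left hB2 hp.le
          have h8 : (r : ℝ) ^ (n + 18) * (1 / (r : ℝ) ^ (N + t)) < 1 := by
            rw [mul_one_div, div_lt_one (by positivity)]
            apply pow_lt_pow_right₀ (by linarith)
            omega
          rw [mul_add] at h7
          linarith
      rw [hfl]
      exact Int.mul_emod_left _ _
    have := card_le_card hsub
    rw [Nat.card_Ico] at this
    omega
  have hs'pos : (0 : ℝ) < ((N + t : ℕ) : ℝ) := by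
    have : 0 < N + t := by omega
    exact_mod_cast this
  have hc : ((t : ℝ) - 18) / ((N + t : ℕ) : ℝ) ≤ (((Finset.range (N + t)).filter
      (fun n : ℕ => ⌊(r : ℝ) ^ (n + 18) * y⌋ % (r : ℤ) ^ 18 = 0)).card : ℝ) / ((N + t : ℕ) : ℝ) := by
    apply div_le_div_of_nonneg_right _ hs'pos.le
    have h9 : ((t - 18 : ℕ) : ℝ) ≤ (((Finset.range (N + t)).filter
      (fun n : ℕ => ⌊(r : ℝ) ^ (n + 18) * y⌋ % (r : ℤ) ^ 18 = 0)).card : ℝ) := by
      exact_mod_cast hcount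
    rw [Nat.cast_sub (by omega)] at h9
    exact_mod_cast h9
  have hlow : 3 / 68 ≤ ((t : ℝ) - 18) / ((N + t : ℕ) : ℝ) := by
    rw [div_le_div_iff₀ (by norm_num) hs'pos]
    have a1 : ((N + t : ℕ) : ℝ) ≤ 17 * ((t : ℝ) + 1) := by
      have : N + t ≤ 17 * (t + 1) := by omega
      exact_mod_cast this
    have a2 : (80 : ℝ) ≤ t := by exact_mod_cast ht1
    nlinarith
  have hup : 1 / (r : ℝ) ^ 18 ≤ 2 / 68 := by
    rw [div_le_div_iff₀ (by positivity) (by norm_num)]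
    linarith
  linarith

/-- **Main theorem.** -/
theorem main (r : ℕ) (hr : 2 ≤ r) (a c : ℕ → ℝ) (ha : ∀ i, Irrational (a i)) (u v : ℝ)
    (huv : u < v) : ∃ x : ℝ, u < x ∧ x < v ∧ NormalBase r x ∧
      ∀ i, ¬ NormalBase r (a i * x + c i) := by
  obtain ⟨f, hf0, hf1, hf2⟩ := exists_states r hr (fun j => a (Nat.unpair j).1)
    (fun j => c (Nat.unpair j).1) (fun j => ha _) u v huv
  set α : ℕ → ℝ := fun j => a (Nat.unpair j).1 with hα
  set γ : ℕ → ℝ := fun j => c (Nat.unpair j).1 with hγ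
  have hαi : ∀ j, Irrational (α j) := fun j => ha _
  have hr0 : (0 : ℝ) < r := by
    have : 0 < r := by omega
    exact_mod_cast this
  obtain ⟨x, hx⟩ := IsCompact.nonempty_iInter_of_sequence_nonempty_isCompact_isClosed
    (fun j => JS r (α j) (γ j) (f j)) (fun j => nested hr (hf2 j))
    (fun j => Jx_nonempty _ _ _ _ (hαi j).ne_zero (by
      have : (0 : ℝ) < (r : ℝ) ^ (f j).1 := by positivity
      apply div_le_div_of_nonneg_right _ this.le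
      linarith))
    (Jx_compact _ _ _ _ (hαi 0).ne_zero) (fun j => (Jx_compact _ _ _ _ (hαi j).ne_zero).isClosed)
  rw [Set.mem_iInter] at hx
  have hx0 := hf0 (hx 0)
  refine ⟨x, hx0.1, hx0.2, ?_, ?_⟩
  · refine normal_of_blocks hr (fun j => (f j).1) ?_ ?_ ?_
    · intro j
      obtain ⟨N, C, B, h1, h2, h3, h4, -⟩ := hf2 j
      have e : (j + 1) * ((f j).1 + 1) = (j + 1) * (f j).1 + (j + 1) := by ring
      have h5 : (f j).1 + 1 ≤ (j + 1) * ((f j).1 + 1) := Nat.le_mul_of_pos_left _ (by omega)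
      rw [h4]
      rw [e] at h2 h5
      revert h2 h5
      generalize (j + 1) * (f j).1 = P
      intro h2 h5
      omega
    · intro j
      obtain ⟨N, C, B, h1, h2, h3, h4, -⟩ := hf2 j
      have e : (j + 1) * ((f j).1 + 1) = (j + 1) * (f j).1 + (j + 1) := by ring
      have h5 : (f j).1 + 1 ≤ (j + 1) * ((f j).1 + 1) := Nat.le_mul_of_pos_left _ (by omega)
      rw [h4]
      rw [e] at h2 h5
      revert h2 h5
      generalize (j + 1) * (f j).1 = P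
      intro h2 h5
      omega
    · intro j k hk1 hk2 M hM1 hM2
      exact block hr hαi (hf2 j) (hf1 j) (hx (j + 1)) k hk1 hk2 M hM1 hM2
  · intro i
    refine not_normal_of_blocks hr fun n0 => ?_
    have hj : Nat.unpair (Nat.pair i n0) = (i, n0) := Nat.unpair_pair i n0
    obtain ⟨N, C, B, h1, h2, h3, h4, h5, -⟩ := hf2 (Nat.pair i n0)
    have h6 := h5 (hx (Nat.pair i n0 + 1))
    obtain ⟨b1, b2⟩ := h6
    have e1 : α (Nat.pair i n0) = a i := by simp only [hα, hj]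
    have e2 : γ (Nat.pair i n0) = c i := by simp only [hγ, hj]
    rw [e1, e2] at b1 b2
    refine ⟨N, ?_, B, b1, b2⟩
    have h7 : n0 ≤ Nat.pair i n0 := Nat.right_le_pair i n0
    nlinarith

end Pool.Agent.Y771.NM
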