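import Pool.Agent.W28.NRStageLin

/-!
One stage of the construction for affine maps with irrational slope (adapted from the starting module
`W28.NRStageLin`, which has the linear maps and initial digits in `[1/2, 1)`).
-/

set_option autoImplicit false

namespace Pool.Agent.Y771.NM

open Finset Filter Topology
open Pool.Agent.W28.NR hiding pair_eq

/-- pair identity -/
lemma pair_eq (r : ℕ) (b κ : ℝ) (a : ℤ) (K N m m' h p : ℕ) :
    ex (h * ((r : ℝ) ^ m * (b * (((a * (r : ℤ) ^ K + (p : ℤ) : ℤ) : ℝ) / (r : ℝ) ^ N) + κ))) *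
      (starRingEnd ℂ) (ex (h * ((r : ℝ) ^ m' * (b * (((a * (r : ℤ) ^ K + (p : ℤ) : ℤ) : ℝ) /
        (r : ℝ) ^ N) + κ)))) =
    ex (((h * ((r : ℝ) ^ m - (r : ℝ) ^ m') * b / (r : ℝ) ^ N) * (a * (r : ℝ) ^ K) +
      h * ((r : ℝ) ^ m - (r : ℝ) ^ m') * κ)
      + (h * ((r : ℝ) ^ m - (r : ℝ) ^ m') * b / (r : ℝ) ^ N) * p) := by
  rw [ex_mul_conj]
  congr 1
  push_cast
  ring

/-- one stage for an affine map: the current cylinder starts at `a / r ^ L`, the map is `y ↦ b y + κ` -/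
theorem stage_aff (r : ℕ) (hr : 2 ≤ r) (b : ℝ) (hb : Irrational b) :
    ∀ ε : ℝ, 0 < ε → ∀ H : ℕ, ∃ L0 : ℕ, ∀ L, L0 ≤ L → ∀ (a : ℤ) (κ : ℝ),
    ∀ N0 : ℕ, ∃ N, N0 ≤ N ∧ L ≤ N ∧ ∃ p, p < r ^ (N - L) ∧ ∀ h : ℕ, 1 ≤ h → h ≤ H →
      ∀ M, L ≤ M → M ≤ N + N / 16 →
      ‖∑ m ∈ Ico L M, ex (h * ((r : ℝ) ^ m * (b * (((a * (r : ℤ) ^ (N - L) + (p : ℤ) : ℤ) : ℝ) /
        (r : ℝ) ^ N) + κ)))‖ ≤ ε * M := by
  have hb0 : b ≠ 0 := hb.ne_zero
  have hbpos : 0 < |b| := abs_pos.2 hb0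
  have hr2 : (2 : ℝ) ≤ r := by exact_mod_cast hr
  have hr1 : (1 : ℝ) ≤ r := by linarith
  have hr0 : (0 : ℝ) < r := by linarith
  intro ε hε H
  set ε' : ℝ := ε / 8 with hε'
  have hε'0 : 0 < ε' := by positivity
  set C : ℝ := 2 / |b| with hC
  have hC0 : 0 ≤ C := by positivity
  obtain ⟨c0, hc0⟩ : ∃ c0 : ℕ, 2 * H * |b| ≤ 2 ^ c0 := by
    obtain ⟨n, hn⟩ := exists_nat_gt (2 * H * |b|)
    refine ⟨n, hn.le.trans ?_⟩
    exact_mod_cast Nat.lt_two_pow_self.le
  obtain ⟨q, hq⟩ := exists_nat_gt (max (8 * H * (4 * C + 1) / ε' ^ 2) (max (3 / ε') (max (c0 / ε') 1)))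
  have hq1 : 8 * H * (4 * C + 1) / ε' ^ 2 < q := lt_of_le_of_lt (le_max_left _ _) hq
  have hq2 : 3 / ε' < q := lt_of_le_of_lt ((le_max_left _ _).trans (le_max_right _ _)) hq
  have hq3 : c0 / ε' < q := lt_of_le_of_lt
    (((le_max_left _ _).trans (le_max_right _ _)).trans (le_max_right _ _)) hq
  have hq5 : (1 : ℝ) < q := lt_of_le_of_lt
    (((le_max_right _ _).trans (le_max_right _ _)).trans (le_max_right _ _)) hq
  have hq4 : 1 ≤ q := by
    have : 1 < q := by exact_mod_cast hq5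
    omega
  refine ⟨q ^ 2, ?_⟩
  intro L hL a κ N0
  obtain ⟨N1, hN1⟩ := eventually_atTop.1 (pow_sq_small r hr L)
  obtain ⟨N, hNN, hgood⟩ := good_scales r hr b hb H (N0 + N1 + L + c0 + 1)
  have hNL : L ≤ N := by omega
  have hLN : (r : ℝ) ^ N = (r : ℝ) ^ (N - L) * (r : ℝ) ^ L := by rw [← pow_add]; congr 1; omega
  refine ⟨N, by omega, hNL, ?_⟩
  set P := r ^ (N - L) with hP
  have hP1 : 1 ≤ P := Nat.one_le_pow _ _ (by omega)
  have hPr : (P : ℝ) = (r : ℝ) ^ (N - L) := by rw [hP]; push_cast; ring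
  set F : ℕ → ℕ → ℕ → ℂ := fun h m p =>
    ex (h * ((r : ℝ) ^ m * (b * (((a * (r : ℤ) ^ (N - L) + (p : ℤ) : ℤ) : ℝ) / (r : ℝ) ^ N) + κ)))
    with hF
  have hHb : ∀ h : ℕ, h ≤ H → (h : ℝ) ≤ H := fun h hh => by exact_mod_cast hh
  have hX : ∀ m' m : ℕ, m' < m → (r : ℝ) ^ m / 2 ≤ (r : ℝ) ^ m - (r : ℝ) ^ m' := by
    intro m' m hm
    have h1 : (r : ℝ) ^ m' * 2 ≤ (r : ℝ) ^ m := by
      calc (r : ℝ) ^ m' * 2 ≤ (r : ℝ) ^ m' * r := by gcongr
        _ = (r : ℝ) ^ (m' + 1) := by rw [pow_succ]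
        _ ≤ (r : ℝ) ^ m := pow_le_pow_right₀ hr1 hm
    linarith
  -- first range
  obtain ⟨G1, hG1, hG1c, hG1b⟩ := cheb P H L (N - c0) F (fun h m p => norm_ex _)
    C 0 ε' hC0 le_rfl hε'0 hP1 (by omega) (by norm_num) q hq4 hL hq1 hq2.le
    (by
      intro h hh1 hh2 m' m hm1 hm2 hm3
      simp only [hF, pair_eq]
      set θ : ℝ := h * ((r : ℝ) ^ m - (r : ℝ) ^ m') * b / (r : ℝ) ^ N with hθ
      have hh1' : (1 : ℝ) ≤ h := by exact_mod_cast hh1
      have hXm := hX m' m hm2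
      have hXm0 : 0 < (r : ℝ) ^ m - (r : ℝ) ^ m' := lt_of_lt_of_le (by positivity) hXm
      have habs : |θ| = h * ((r : ℝ) ^ m - (r : ℝ) ^ m') * |b| / (r : ℝ) ^ N := by
        rw [hθ, abs_div, abs_mul, abs_mul, Nat.abs_cast, abs_of_pos hXm0,
          abs_of_pos (by positivity : (0 : ℝ) < (r : ℝ) ^ N)]
      have hθlow : (r : ℝ) ^ m / 2 * |b| / (r : ℝ) ^ N ≤ |θ| := by
        rw [habs]
        apply div_le_div_of_nonneg_right _ (by positivity)
        apply mul_le_mul_of_nonneg_right _ hbpos.le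
        nlinarith
      have hθup : |θ| ≤ 1 / 2 := by
        rw [habs, div_le_iff₀ (by positivity)]
        have h1 : (r : ℝ) ^ N = (r : ℝ) ^ (N - m) * (r : ℝ) ^ m := by rw [← pow_add]; congr 1; omega
        have h2 : 2 * (h : ℝ) * |b| ≤ (r : ℝ) ^ (N - m) := by
          calc 2 * (h : ℝ) * |b| ≤ 2 * H * |b| := by
                have := hHb h hh2
                gcongr
            _ ≤ 2 ^ c0 := hc0
            _ ≤ (r : ℝ) ^ c0 := pow_le_pow_left₀ (by norm_num) hr2 _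
            _ ≤ (r : ℝ) ^ (N - m) := pow_le_pow_right₀ hr1 (by omega)
        have h3 : (0 : ℝ) < (r : ℝ) ^ m' := by positivity
        have h4 : (0 : ℝ) < (r : ℝ) ^ m := by positivity
        rw [h1]
        calc (h : ℝ) * ((r : ℝ) ^ m - (r : ℝ) ^ m') * |b| ≤ h * (r : ℝ) ^ m * |b| := by
              gcongr; linarith
          _ = (h * |b|) * (r : ℝ) ^ m := by ring
          _ ≤ (1 / 2 * (r : ℝ) ^ (N - m)) * (r : ℝ) ^ m := by
              apply mul_le_mul_of_nonneg_right _ h4.le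
              linarith
          _ = _ := by ring
      have hθ0 : 0 < |θ| := lt_of_lt_of_le (by positivity) hθlow
      have hdist : ∀ n : ℤ, |θ| / 2 < |θ - n| := by
        intro n
        by_cases hn : n = 0
        · rw [hn]; simp only [Int.cast_zero, sub_zero]; linarith
        · have h1 : (1 : ℝ) ≤ |(n : ℝ)| := by
            have : 1 ≤ |n| := Int.one_le_abs hn
            exact_mod_cast this
          have h2 := abs_sub_abs_le_abs_sub (n : ℝ) θ
          rw [abs_sub_comm] at h2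
          linarith
      refine (geom_ex (half_pos hθ0) hdist P).trans ?_
      have e1 : 1 / (2 * (|θ| / 2)) = 1 / |θ| := by
        congr 1; ring
      rw [e1]
      have e2 : (P : ℝ) * (C / 2 ^ (m - L) + 0) = 2 * P / (|b| * 2 ^ (m - L)) := by
        rw [hC]; field_simp; ring
      rw [e2, div_le_div_iff₀ hθ0 (by positivity), one_mul]
      have hmL : (r : ℝ) ^ m = (r : ℝ) ^ (m - L) * (r : ℝ) ^ L := by
        rw [← pow_add]; congr 1; omega
      have e3 : 2 * (P : ℝ) * ((r : ℝ) ^ m / 2 * |b| / (r : ℝ) ^ N) = (r : ℝ) ^ (m - L) * |b| := by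
        rw [hLN, hmL, hPr]; field_simp
      calc |b| * 2 ^ (m - L) ≤ |b| * (r : ℝ) ^ (m - L) := by gcongr
        _ = 2 * (P : ℝ) * ((r : ℝ) ^ m / 2 * |b| / (r : ℝ) ^ N) := by rw [e3]; ring
        _ ≤ 2 * P * |θ| := by gcongr)
  -- second range
  obtain ⟨G2, hG2, hG2c, hG2b⟩ := cheb P H N (N + N / 16) F (fun h m p => norm_ex _)
    C ((r : ℝ) ^ (N / 2) / (2 * (r : ℝ) ^ (N - L))) ε' hC0 (by positivity) hε'0 hP1 (by omega)
    (by
      refine le_trans ?_ (hN1 N (by omega))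
      have : ((N + N / 16 - N : ℕ) : ℝ) ≤ N := by
        have : N + N / 16 - N ≤ N := by omega
        exact_mod_cast this
      gcongr)
    q hq4 (by omega) hq1 hq2.le
    (by
      intro h hh1 hh2 m' m hm1 hm2 hm3
      simp only [hF, pair_eq]
      set θ : ℝ := h * ((r : ℝ) ^ m - (r : ℝ) ^ m') * b / (r : ℝ) ^ N with hθ
      obtain ⟨k, rfl⟩ : ∃ k, m = N + k := ⟨m - N, by omega⟩
      obtain ⟨k', rfl⟩ : ∃ k', m' = N + k' := ⟨m' - N, by omega⟩
      have hkk : r ^ k' < r ^ k := Nat.pow_lt_pow_right (by omega) (by omega)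
      have ht1 : 1 ≤ h * (r ^ k - r ^ k') := Nat.one_le_iff_ne_zero.2 (by
        apply Nat.mul_ne_zero <;> omega)
      have ht2 : h * (r ^ k - r ^ k') ≤ H * r ^ (N / 16) := by
        apply Nat.mul_le_mul hh2
        calc r ^ k - r ^ k' ≤ r ^ k := Nat.sub_le _ _
          _ ≤ r ^ (N / 16) := Nat.pow_le_pow_right (by omega) (by omega)
      have hθe : θ = b * ((h * (r ^ k - r ^ k') : ℕ) : ℝ) := by
        rw [hθ]; push_cast [hkk.le]; rw [pow_add, pow_add]; field_simp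
      have hdist : ∀ n : ℤ, 1 / (r : ℝ) ^ (N / 2) < |θ - n| := by
        intro n
        rw [hθe]
        exact hgood _ ht1 ht2 n
      refine (geom_ex (by positivity) hdist P).trans ?_
      have e1 : 1 / (2 * (1 / (r : ℝ) ^ (N / 2))) = (r : ℝ) ^ (N / 2) / 2 := by field_simp
      have e2 : (P : ℝ) * ((r : ℝ) ^ (N / 2) / (2 * (r : ℝ) ^ (N - L))) = (r : ℝ) ^ (N / 2) / 2 := by
        rw [hPr]; field_simp
      have e3 : 0 ≤ (P : ℝ) * (C / 2 ^ (N + k - N)) := by positivity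
      rw [e1, mul_add, e2]
      linarith)
  -- common parameter
  have hinter : (G1 ∩ G2).Nonempty := by
    have hU : (G1 ∪ G2).card ≤ P := by
      have := card_le_card (union_subset hG1 hG2)
      rwa [card_range] at this
    have := card_union_add_card_inter G1 G2
    rw [← card_pos]
    omega
  obtain ⟨p, hp⟩ := hinter
  rw [mem_inter] at hp
  refine ⟨p, mem_range.1 (hG1 hp.1), ?_⟩
  intro h hh1 hh2 M hM1 hM2
  have hLr : (c0 : ℝ) ≤ ε' * M := by
    rw [div_lt_iff₀ hε'0] at hq3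
    have h1 : (q : ℝ) ≤ (q : ℝ) ^ 2 := by nlinarith
    have h2 : ((q ^ 2 : ℕ) : ℝ) ≤ M := by
      have : q ^ 2 ≤ M := hL.trans hM1
      exact_mod_cast this
    push_cast at h2
    nlinarith
  have hM0 : (0 : ℝ) ≤ M := Nat.cast_nonneg _
  change ‖∑ m ∈ Ico L M, F h m p‖ ≤ ε * M
  have hbound1 : ∀ M, L ≤ M → M ≤ N → ‖∑ m ∈ Ico L M, F h m p‖ ≤ 2 * ε' * M + c0 := by
    intro M h1 h2
    rcases le_or_gt M (N - c0) with hc | hc
    · have := hG1b p hp.1 h hh1 hh2 M h1 hc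
      have : (0 : ℝ) ≤ c0 := Nat.cast_nonneg _
      linarith
    · have hs : ∑ m ∈ Ico L M, F h m p = ∑ m ∈ Ico L (N - c0), F h m p + ∑ m ∈ Ico (N - c0) M, F h m p :=
        (sum_Ico_consecutive _ (by omega) (by omega)).symm
      rw [hs]
      refine (norm_add_le _ _).trans ?_
      have h3 := hG1b p hp.1 h hh1 hh2 (N - c0) (by omega) le_rfl
      have h4 : ‖∑ m ∈ Ico (N - c0) M, F h m p‖ ≤ c0 := by
        refine (norm_sum_le _ _).trans ?_
        simp only [hF, norm_ex, sum_const, Nat.card_Ico, nsmul_eq_mul, mul_one]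
        have : M - (N - c0) ≤ c0 := by omega
        exact_mod_cast this
      have h5 : ((N - c0 : ℕ) : ℝ) ≤ M := by exact_mod_cast hc.le
      have h6 : 2 * ε' * ((N - c0 : ℕ) : ℝ) ≤ 2 * ε' * M := by gcongr
      linarith
  rcases le_or_gt M N with hc | hc
  · have := hbound1 M hM1 hc
    have e : ε = 8 * ε' := by rw [hε']; ring
    clear_value ε'
    have h7 := mul_nonneg hε'0.le hM0
    have h8 : ε * (M : ℝ) = 8 * (ε' * M) := by rw [e]; ring
    rw [h8]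
    linarith
  · have hs : ∑ m ∈ Ico L M, F h m p = ∑ m ∈ Ico L N, F h m p + ∑ m ∈ Ico N M, F h m p :=
      (sum_Ico_consecutive _ (by omega) (by omega)).symm
    rw [hs]
    refine (norm_add_le _ _).trans ?_
    have h3 := hbound1 N hNL le_rfl
    have h4 := hG2b p hp.2 h hh1 hh2 M hc.le hM2
    have h5 : (N : ℝ) ≤ M := by exact_mod_cast hc.le
    have h6 : 2 * ε' * (N : ℝ) ≤ 2 * ε' * M := by gcongr
    have e : ε = 8 * ε' := by rw [hε']; ring
    clear_value ε'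
    have h7 := mul_nonneg hε'0.le hM0
    have h8 : ε * (M : ℝ) = 8 * (ε' * M) := by rw [e]; ring
    rw [h8]
    linarith


end Pool.Agent.Y771.NM
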